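import Pool.Agent.Lib.TGL_h17.Reg
import Pool.Agent.Lib.TGB_h34.Fr0
import Pool.Agent.Lib.ALLZO.NFD

/-!
# TANK G, limit level: noetherian levels of plain frames; frame rings are integrally closed
-/

set_option autoImplicit false

open Polynomial

namespace Pool.Agent.TGL17

open Pool.Agent.TAO (OVal VPos VPos.zero VPos.add VPos.mul' VPos.sub Ctx0)
open Pool.Agent.ALLO (locv le_locv locv_mono locv_le locv_inv locv_nonneg)
open Pool.Agent.ALLZO (ctx_residue ctx_const GoodBasis perron)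
open Pool.Agent.TGBh34 (IsFr Pre0 MM0)
open Pool.Agent.LU1 (FracIs)
open Pool.Agent.LU1.NFA (mem_frac)

universe u w

variable {k Ω : Type u} [Field k] [Field Ω] [Algebra k Ω]
  {𝕂 : Type w} [Field 𝕂] [LinearOrder 𝕂] [IsStrictOrderedRing 𝕂] {v : OVal 𝕂 Ω} {m n r D : ℕ}
  {Γ : AddSubgroup 𝕂} {χ : 𝕂 → Ω} {y : Fin D → Ω} {R : Subalgebra k Ω}

/-- `Γ` has a `ℚ`-basis of `r` elements. -/
def Rk (Γ : AddSubgroup 𝕂) (r : ℕ) : Prop :=
  ∃ X : Fin r → 𝕂, LinearIndependent ℚ X ∧ (∀ i, X i ∈ Γ) ∧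
    ∀ γ ∈ Γ, γ ∈ Submodule.span ℚ (Set.range X)

theorem chi_sum (H : Pre0 v Γ χ y R) {ι : Type*} (s : Finset ι) (u : ι → 𝕂) (hu : ∀ i, u i ∈ Γ)
    (n : ι → ℤ) : (∑ i ∈ s, (n i : 𝕂) * u i) ∈ Γ ∧
      χ (∑ i ∈ s, (n i : 𝕂) * u i) = ∏ i ∈ s, χ (u i) ^ n i := by
  classical
  induction s using Finset.induction_on with
  | empty => exact ⟨by simp, by simp [H.mon.zero]⟩
  | insert i s hi ih =>
    have h1 : (n i : 𝕂) * u i ∈ Γ := by
      rw [← zsmul_eq_mul]; exact Γ.zsmul_mem (hu i) _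
    rw [Finset.sum_insert hi, Finset.prod_insert hi]
    exact ⟨Γ.add_mem h1 ih.1, by rw [H.mon.add _ h1 _ ih.1, H.mon.int_mul (hu i), ih.2]⟩

/-- Only finitely many monomials are used. -/
theorem adjoin_finite (H : Pre0 v Γ χ y R) (F : Set Ω) {f : Ω}
    (hf : f ∈ Algebra.adjoin k (F ∪ χ '' {γ | γ ∈ Γ ∧ 0 ≤ γ})) :
    ∃ S : Finset 𝕂, (∀ γ ∈ S, γ ∈ Γ ∧ 0 < γ) ∧
      f ∈ Algebra.adjoin k (F ∪ χ '' (S : Set 𝕂)) := by
  classical
  have mono : ∀ {S T : Finset 𝕂}, S ⊆ T → Algebra.adjoin k (F ∪ χ '' (S : Set 𝕂)) ≤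
      Algebra.adjoin k (F ∪ χ '' (T : Set 𝕂)) := fun h =>
    Algebra.adjoin_mono (Set.union_subset_union_right _ (Set.image_mono (by exact_mod_cast h)))
  have hun : ∀ {S T : Finset 𝕂}, (∀ γ ∈ S, γ ∈ Γ ∧ 0 < γ) → (∀ γ ∈ T, γ ∈ Γ ∧ 0 < γ) →
      ∀ γ ∈ S ∪ T, γ ∈ Γ ∧ 0 < γ := by
    intro S T h1 h2 γ hγ
    rcases Finset.mem_union.1 hγ with h | h
    · exact h1 γ h
    · exact h2 γ h
  induction hf using Algebra.adjoin_induction with
  | mem x hx =>
    rcases hx with hx | ⟨γ, ⟨hγ, h0⟩, rfl⟩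
    · exact ⟨∅, by simp, Algebra.subset_adjoin (Or.inl hx)⟩
    · rcases h0.lt_or_eq with h1 | rfl
      · exact ⟨{γ}, by simp [hγ, h1], Algebra.subset_adjoin (Or.inr ⟨γ, by simp, rfl⟩)⟩
      · exact ⟨∅, by simp, by rw [H.mon.zero]; exact Subalgebra.one_mem _⟩
  | algebraMap c => exact ⟨∅, by simp, Subalgebra.algebraMap_mem _ c⟩
  | add x y _ _ hx hy =>
    obtain ⟨S, hS, h1⟩ := hx
    obtain ⟨T, hT, h2⟩ := hy
    exact ⟨S ∪ T, hun hS hT, Subalgebra.add_mem _ (mono Finset.subset_union_left h1)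
      (mono Finset.subset_union_right h2)⟩
  | mul x y _ _ hx hy =>
    obtain ⟨S, hS, h1⟩ := hx
    obtain ⟨T, hT, h2⟩ := hy
    exact ⟨S ∪ T, hun hS hT, Subalgebra.mul_mem _ (mono Finset.subset_union_left h1)
      (mono Finset.subset_union_right h2)⟩

theorem locv_finite (H : Pre0 v Γ χ y R) (F : Set Ω) {f : Ω}
    (hf : f ∈ locv v (Algebra.adjoin k (F ∪ χ '' {γ | γ ∈ Γ ∧ 0 ≤ γ}))) :
    ∃ S : Finset 𝕂, (∀ γ ∈ S, γ ∈ Γ ∧ 0 < γ) ∧
      f ∈ locv v (Algebra.adjoin k (F ∪ χ '' (S : Set 𝕂))) := by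
  classical
  obtain ⟨a, ha, b, hb, h0, h1, rfl⟩ := hf
  obtain ⟨S, hS, h2⟩ := adjoin_finite H F ha
  obtain ⟨T, hT, h3⟩ := adjoin_finite H F hb
  refine ⟨S ∪ T, fun γ hγ => ?_, a, ?_, b, ?_, h0, h1, rfl⟩
  · rcases Finset.mem_union.1 hγ with h | h
    · exact hS γ h
    · exact hT γ h
  · exact Algebra.adjoin_mono (Set.union_subset_union_right _ (Set.image_mono
      (by exact_mod_cast Finset.subset_union_left))) h2
  · exact Algebra.adjoin_mono (Set.union_subset_union_right _ (Set.image_mono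
      (by exact_mod_cast Finset.subset_union_right))) h3

/-- For every sufficiently fine basis `u` of `Γ` there is a noetherian local ring
`locv k[G, χ(u), y]` in `R` with maximal ideal `(χ(u), y)`, containing the finite set `T`. -/
theorem exists_level (h : Ctx0 k v m) (H : IsFr v Γ χ y R) {E : IntermediateField k Ω}
    (hE : FracIs R E) (T : Finset Ω) (hT : ∀ f ∈ T, f ∈ R) :
    ∃ S0 : Finset 𝕂, (∀ γ ∈ S0, γ ∈ Γ ∧ 0 < γ) ∧
      ∀ u : Fin r → 𝕂, GoodBasis Γ (S0 : Set 𝕂) u →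
        ∃ N : Subalgebra k Ω, NR v E N (Sum.elim (fun i => χ (u i)) y) ∧ N ≤ R ∧
          (∀ f ∈ T, f ∈ N) := by
  classical
  obtain ⟨F, hF⟩ := H.fgen
  have hFR : ∀ f ∈ F, f ∈ R := fun f hf => by
    rw [hF]; exact le_locv _ (Algebra.subset_adjoin (Or.inl hf))
  have hGR : ∀ f ∈ F ∪ T, f ∈ R := fun f hf => by
    rcases Finset.mem_union.1 hf with h1 | h1
    · exact hFR f h1
    · exact hT f h1
  have key : ∀ g : {g // g ∈ F ∪ T}, ∃ (c : k) (γ : 𝕂) (a : Ω) (b : Fin D → Ω) (S : Finset 𝕂),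
      γ ∈ Γ ∧ (0 < γ ∨ a = 0) ∧ (∀ δ ∈ S, δ ∈ Γ ∧ 0 < δ) ∧
      a ∈ locv v (Algebra.adjoin k ((F : Set Ω) ∪ χ '' (S : Set 𝕂))) ∧
      (∀ j, b j ∈ locv v (Algebra.adjoin k ((F : Set Ω) ∪ χ '' (S : Set 𝕂)))) ∧
      (g : Ω) - algebraMap k Ω c = χ γ * a + ∑ j, y j * b j := by
    rintro ⟨g, hg⟩
    obtain ⟨c, hc⟩ := ctx_residue h (H.nonneg g (hGR g hg))
    have hcR : g - algebraMap k Ω c ∈ R := R.sub_mem (hGR g hg) (R.algebraMap_mem c)
    obtain ⟨γ, hγ, a, ha, hγ0, b, hb, e⟩ := H.gen _ hcR hc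
    rw [hF] at ha
    have hb' : ∀ j, ∃ S : Finset 𝕂, (∀ γ ∈ S, γ ∈ Γ ∧ 0 < γ) ∧
        b j ∈ locv v (Algebra.adjoin k ((F : Set Ω) ∪ χ '' (S : Set 𝕂))) := by
      intro j
      have h1 := hb j
      rw [hF] at h1
      exact locv_finite H.toPre0 _ h1
    obtain ⟨S, hS, h1⟩ := locv_finite H.toPre0 _ ha
    choose S' hS' h2 using hb'
    refine ⟨c, γ, a, b, S ∪ Finset.univ.biUnion S', hγ, hγ0, fun δ hδ => ?_, ?_, fun j => ?_, e⟩
    · rcases Finset.mem_union.1 hδ with h3 | h3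
      · exact hS δ h3
      · obtain ⟨j, -, h4⟩ := Finset.mem_biUnion.1 h3
        exact hS' j δ h4
    · exact locv_mono (Algebra.adjoin_mono (Set.union_subset_union_right _ (Set.image_mono
        (by exact_mod_cast Finset.subset_union_left)))) h1
    · have h5 : S' j ⊆ S ∪ Finset.univ.biUnion S' := fun δ hδ =>
        Finset.mem_union_right _ (Finset.mem_biUnion.2 ⟨j, Finset.mem_univ _, hδ⟩)
      exact locv_mono (Algebra.adjoin_mono (Set.union_subset_union_right _ (Set.image_mono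
        (by exact_mod_cast h5)))) (h2 j)
  choose c γ a b S hγ hγ0 hS ha hb hab using key
  refine ⟨(F ∪ T).attach.biUnion fun g => if 0 < γ g then insert (γ g) (S g) else S g, ?_,
    fun u hu => ?_⟩
  · intro δ hδ
    obtain ⟨g, -, hg⟩ := Finset.mem_biUnion.1 hδ
    split_ifs at hg with h0
    · rcases Finset.mem_insert.1 hg with rfl | hg
      · exact ⟨hγ g, h0⟩
      · exact hS g δ hg
    · exact hS g δ hg
  -- the ring
  set x : Fin r → Ω := fun i => χ (u i) with hx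
  set A : Subalgebra k Ω := Algebra.adjoin k (((F ∪ T : Finset Ω) : Set Ω) ∪ Set.range x ∪
    Set.range y) with hA
  have hxA : ∀ i, x i ∈ A := fun i => Algebra.subset_adjoin (Or.inl (Or.inr ⟨i, rfl⟩))
  have hyA : ∀ j, y j ∈ A := fun j => Algebra.subset_adjoin (Or.inr ⟨j, rfl⟩)
  have hGA : ∀ f ∈ F ∪ T, f ∈ A := fun f hf => Algebra.subset_adjoin (Or.inl (Or.inl hf))
  have hAR : A ≤ R := by
    refine Algebra.adjoin_le ?_
    rintro f ((hf | ⟨i, rfl⟩) | ⟨j, rfl⟩)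
    · exact hGR f hf
    · exact H.χ_mem _ (hu.mem i) (hu.pos i).le
    · exact H.y_mem j
  have hRR : locv v A ≤ R := locv_le hAR H.loc
  have hnon : ∀ f ∈ locv v A, v.Ge 0 f := fun f hf => H.nonneg f (hRR hf)
  -- monomials with natural exponents
  have hmon : ∀ n : Fin r → ℕ, χ (∑ i, (n i : 𝕂) * u i) ∈ A := by
    intro n
    have h1 := (chi_sum H.toPre0 Finset.univ u hu.mem fun i => (n i : ℤ)).2
    simp only [Int.cast_natCast] at h1
    rw [h1]
    exact Subalgebra.prod_mem _ fun i _ => by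
      rw [zpow_natCast]; exact Subalgebra.pow_mem _ (hxA i) _
  have hcone : ∀ δ : 𝕂, (∃ n : Fin r → ℕ, (∃ i, 0 < n i) ∧ δ = ∑ i, (n i : 𝕂) * u i) →
      ∃ i0, ∃ e ∈ A, χ δ = x i0 * e := by
    rintro δ ⟨n, ⟨i0, hn⟩, rfl⟩
    refine ⟨i0, χ (∑ i, ((Function.update n i0 (n i0 - 1)) i : 𝕂) * u i), hmon _, ?_⟩
    have h2 : ∑ i, (n i : 𝕂) * u i =
        u i0 + ∑ i, ((Function.update n i0 (n i0 - 1)) i : 𝕂) * u i := by
      rw [← Finset.add_sum_erase _ _ (Finset.mem_univ i0),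
        ← Finset.add_sum_erase _ (fun i => ((Function.update n i0 (n i0 - 1)) i : 𝕂) * u i)
        (Finset.mem_univ i0)]
      have h3 : ∑ i ∈ Finset.univ.erase i0, ((Function.update n i0 (n i0 - 1)) i : 𝕂) * u i =
          ∑ i ∈ Finset.univ.erase i0, (n i : 𝕂) * u i := by
        refine Finset.sum_congr rfl fun i hi => ?_
        rw [Function.update_of_ne (Finset.ne_of_mem_erase hi)]
      rw [h3, Function.update_self, Nat.cast_sub hn]
      push_cast
      ring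
    have h4 : ∑ i, ((Function.update n i0 (n i0 - 1)) i : 𝕂) * u i ∈ Γ := by
      have h5 := (chi_sum H.toPre0 Finset.univ u hu.mem fun i =>
        ((Function.update n i0 (n i0 - 1)) i : ℤ)).1
      simpa using h5
    rw [h2, H.mon.add _ (hu.mem i0) _ h4]
  have hS0 : ∀ (g : {g // g ∈ F ∪ T}), ∀ δ ∈ (if 0 < γ g then insert (γ g) (S g) else S g),
      ∃ i0, ∃ e ∈ A, χ δ = x i0 * e := by
    intro g δ hδ
    refine hcone δ (hu.cone δ ?_)
    rw [Finset.mem_coe, Finset.mem_biUnion]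
    exact ⟨g, Finset.mem_attach _ _, hδ⟩
  have hFS : ∀ g : {g // g ∈ F ∪ T},
      Algebra.adjoin k ((F : Set Ω) ∪ χ '' (S g : Set 𝕂)) ≤ A := by
    intro g
    refine Algebra.adjoin_le ?_
    rintro f (hf | ⟨δ, hδ, rfl⟩)
    · exact hGA f (Finset.mem_union_left _ hf)
    · obtain ⟨i0, e, he, h1⟩ := hS0 g δ (by
        split_ifs
        · exact Finset.mem_insert_of_mem hδ
        · exact hδ)
      rw [SetLike.mem_coe, h1]
      exact A.mul_mem (hxA i0) he
  -- the ideal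
  let I : Ω → Prop := fun f => ∃ a : Fin r → Ω, (∀ i, a i ∈ locv v A) ∧ ∃ b : Fin D → Ω,
    (∀ j, b j ∈ locv v A) ∧ f = ∑ i, x i * a i + ∑ j, y j * b j
  have hIadd : ∀ f g, I f → I g → I (f + g) := by
    rintro f g ⟨a, ha, b, hb, rfl⟩ ⟨a', ha', b', hb', rfl⟩
    refine ⟨fun i => a i + a' i, fun i => Subalgebra.add_mem _ (ha i) (ha' i),
      fun j => b j + b' j, fun j => Subalgebra.add_mem _ (hb j) (hb' j), ?_⟩
    simp only [mul_add, Finset.sum_add_distrib]
    ring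
  have hImul : ∀ f g, I f → g ∈ locv v A → I (f * g) := by
    rintro f g ⟨a, ha, b, hb, rfl⟩ hg
    refine ⟨fun i => a i * g, fun i => Subalgebra.mul_mem _ (ha i) hg, fun j => b j * g,
      fun j => Subalgebra.mul_mem _ (hb j) hg, ?_⟩
    rw [add_mul, Finset.sum_mul, Finset.sum_mul]
    simp only [mul_assoc]
  have hI0 : I 0 := ⟨0, fun _ => Subalgebra.zero_mem _, 0, fun _ => Subalgebra.zero_mem _, by simp⟩
  have hIsum : ∀ {ι : Type} (s : Finset ι) (f : ι → Ω), (∀ i ∈ s, I (f i)) → I (∑ i ∈ s, f i) := by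
    intro ι s f hf
    induction s using Finset.induction_on with
    | empty => rw [Finset.sum_empty]; exact hI0
    | insert i s hi ih =>
      rw [Finset.sum_insert hi]
      exact hIadd _ _ (hf i (Finset.mem_insert_self i s))
        (ih fun j hj => hf j (Finset.mem_insert_of_mem hj))
  have hIx : ∀ i, I (x i) := fun i => ⟨Pi.single i 1, fun j => by
      by_cases hj : j = i
      · subst hj; rw [Pi.single_eq_same]; exact Subalgebra.one_mem _
      · rw [Pi.single_eq_of_ne hj]; exact Subalgebra.zero_mem _, 0, fun _ => Subalgebra.zero_mem _, by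
      simp [Pi.single_apply]⟩
  have hIy : ∀ j, I (y j) := fun j => ⟨0, fun _ => Subalgebra.zero_mem _, Pi.single j 1,
    fun l => by
      by_cases hj : l = j
      · subst hj; rw [Pi.single_eq_same]; exact Subalgebra.one_mem _
      · rw [Pi.single_eq_of_ne hj]; exact Subalgebra.zero_mem _, by
      simp [Pi.single_apply]⟩
  have hIpos : ∀ f, I f → VPos v f := by
    rintro f ⟨a, ha, b, hb, rfl⟩
    refine (TGBh34.vpos_sum _ _ fun i _ => ?_).add (TGBh34.vpos_sum _ _ fun j _ => ?_)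
    · refine VPos.mul (fun _ => ?_) (hnon _ (ha i))
      rw [hx]
      simp only
      rw [H.mon.val _ (hu.mem i)]
      exact hu.pos i
    · exact VPos.mul (fun _ => H.y_pos j) (hnon _ (hb j))
  -- every element of `A` is a constant plus an element of the ideal
  have hAI : ∀ f ∈ A, ∃ c : k, I (f - algebraMap k Ω c) := by
    intro f hf
    induction hf using Algebra.adjoin_induction with
    | mem f hf =>
      rcases hf with (hf | ⟨i, rfl⟩) | ⟨j, rfl⟩
      · have hg : f ∈ F ∪ T := hf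
        refine ⟨c ⟨f, hg⟩, ?_⟩
        have h1 := hab ⟨f, hg⟩
        simp only at h1
        rw [h1]
        have h3 : I (∑ j, y j * b ⟨f, hg⟩ j) := hIsum _ _ fun j _ => hImul _ _ (hIy j)
          (locv_mono (hFS _) (hb _ j))
        rcases hγ0 ⟨f, hg⟩ with h0 | h0
        · obtain ⟨i0, e, he, h2⟩ := hS0 ⟨f, hg⟩ (γ ⟨f, hg⟩) (by
            rw [if_pos h0]
            exact Finset.mem_insert_self _ _)
          rw [h2, mul_assoc]
          refine hIadd _ _ (hImul _ _ (hIx i0) ?_) h3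
          exact Subalgebra.mul_mem _ (le_locv _ he) (locv_mono (hFS _) (ha _))
        · rw [h0, mul_zero, zero_add]
          exact h3
      · exact ⟨0, by rw [_root_.map_zero, sub_zero]; exact hIx i⟩
      · exact ⟨0, by rw [_root_.map_zero, sub_zero]; exact hIy j⟩
    | algebraMap c => exact ⟨c, by rw [sub_self]; exact hI0⟩
    | add f g _ _ hf hg =>
      obtain ⟨c, hc⟩ := hf
      obtain ⟨d, hd⟩ := hg
      refine ⟨c + d, ?_⟩
      have := hIadd _ _ hc hd
      rw [_root_.map_add]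
      convert this using 1
      ring
    | mul f g hfA hgA hf hg =>
      obtain ⟨c, hc⟩ := hf
      obtain ⟨d, hd⟩ := hg
      refine ⟨c * d, ?_⟩
      have h1 := hImul _ g hc (le_locv _ hgA)
      have h2 := hImul _ (algebraMap k Ω c) hd (Subalgebra.algebraMap_mem _ c)
      have := hIadd _ _ h1 h2
      rw [_root_.map_mul]
      convert this using 1
      ring
  have hgen : ∀ f ∈ locv v A, VPos v f → I f := by
    rintro f hf hfp
    obtain ⟨P, hP, Q, hQ, hQ0, hvQ, rfl⟩ := hf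
    obtain ⟨c, hc⟩ := hAI P hP
    have hPp : VPos v P := by
      intro hP0
      have h1 := hfp (div_ne_zero hP0 hQ0)
      rwa [v.map_div hP0 hQ0, hvQ, sub_zero] at h1
    have hcp : VPos v (algebraMap k Ω c) := by
      have h1 := hPp.sub (hIpos _ hc)
      rwa [sub_sub_cancel] at h1
    have hc0 := ctx_const h hcp
    rw [hc0, _root_.map_zero, sub_zero] at hc
    rw [div_eq_mul_inv]
    exact hImul _ _ hc (locv_inv (le_locv _ hQ) hQ0 hvQ)
  -- the field of fractions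
  have hfrac : ∀ g ∈ E, ∃ a ∈ locv v A, ∃ b ∈ locv v A, b ≠ 0 ∧ g = a / b := by
    intro g hg
    rw [← mem_frac]
    have hfield : Algebra.adjoin k ((F : Set Ω) ∪ χ '' {γ | γ ∈ Γ ∧ 0 ≤ γ}) ≤
        (IntermediateField.adjoin k ((locv v A : Subalgebra k Ω) : Set Ω)).toSubalgebra := by
      refine Algebra.adjoin_le ?_
      rintro f (hf | ⟨δ, ⟨hδ, -⟩, rfl⟩)
      · exact IntermediateField.subset_adjoin _ _ (le_locv _ (hGA f (Finset.mem_union_left _ hf)))
      · obtain ⟨n, hn⟩ := hu.gen δ hδ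
        have h1 := (chi_sum H.toPre0 Finset.univ u hu.mem n).2
        rw [← hn] at h1
        rw [SetLike.mem_coe, h1]
        exact prod_mem fun i _ => zpow_mem
          (IntermediateField.subset_adjoin _ _ (le_locv _ (hxA i))) _
    have hR' : ∀ f ∈ R, f ∈ IntermediateField.adjoin k ((locv v A : Subalgebra k Ω) : Set Ω) := by
      intro f hf
      rw [hF] at hf
      obtain ⟨a, ha, b, hb, -, -, rfl⟩ := hf
      exact div_mem (hfield ha) (hfield hb)
    obtain ⟨a, ha, b, hb, -, rfl⟩ := hE.2 g hg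
    exact div_mem (hR' a ha) (hR' b hb)
  refine ⟨locv v A, ⟨?_, hnon, ?_, ?_, ?_, fun f hf => hE.1 f (hRR hf), hfrac⟩, hRR,
    fun f hf => le_locv _ (hGA f (Finset.mem_union_right _ hf))⟩
  · refine ⟨(F ∪ T) ∪ Finset.univ.image x ∪ Finset.univ.image y, ?_⟩
    rw [hA]
    congr 2
    ext z
    simp only [Finset.coe_union, Set.mem_union, Finset.coe_image, Finset.coe_univ, Set.image_univ]
  · rintro (i | j)
    · exact le_locv _ (hxA i)
    · exact le_locv _ (hyA j)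
  · rintro (i | j)
    · intro _
      rw [Sum.elim_inl, H.mon.val _ (hu.mem i)]
      exact hu.pos i
    · exact fun _ => H.y_pos j
  · intro f hf hfp
    obtain ⟨a, ha, b, hb, hab⟩ := hgen f hf hfp
    refine ⟨Sum.elim a b, ?_, ?_⟩
    · rintro (i | j)
      · exact ha i
      · exact hb j
    · rw [Fintype.sum_sum_type]
      simpa using hab

/-- Every finite subset of a frame ring lies in a regular local subring with the same field of
fractions, with parameters `r` monomials and `y`. -/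
theorem exists_level' (h : Ctx0 k v m) (H : IsFr v Γ χ y R) (hr : Rk Γ r)
    {E : IntermediateField k Ω} (hE : FracIs R E) (T : Finset Ω) (hT : ∀ f ∈ T, f ∈ R)
    (S : Finset 𝕂) (hS : ∀ γ ∈ S, γ ∈ Γ ∧ 0 < γ) :
    ∃ (u : Fin r → 𝕂) (N : Subalgebra k Ω), GoodBasis Γ (S : Set 𝕂) u ∧
      NR v E N (Sum.elim (fun i => χ (u i)) y) ∧ N ≤ R ∧ ∀ f ∈ T, f ∈ N := by
  classical
  obtain ⟨S0, hS0, hu⟩ := exists_level (r := r) h H hE T hT
  obtain ⟨u, hu0⟩ := perron Γ H.fg hr (S ∪ S0) (by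
    intro γ hγ
    rcases Finset.mem_union.1 hγ with h1 | h1
    · exact hS γ h1
    · exact hS0 γ h1)
  have h1 : ∀ S' : Finset 𝕂, S' ⊆ S ∪ S0 → GoodBasis Γ (S' : Set 𝕂) u := fun S' hS' =>
    ⟨hu0.mem, hu0.pos, hu0.ind, hu0.gen, fun δ hδ => hu0.cone δ (by exact_mod_cast hS' hδ)⟩
  obtain ⟨N, h2, h3, h4⟩ := hu u (h1 S0 Finset.subset_union_right)
  exact ⟨u, N, h1 S Finset.subset_union_left, h2, h3, h4⟩

/-- **A frame ring is integrally closed.** -/
theorem normal (h : Ctx0 k v m) (H : IsFr v Γ χ y R) (hr : Rk Γ r) {E : IntermediateField k Ω}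
    (hE : FracIs R E) (hn : Algebra.trdeg k E = n) (hrD : n = r + D) {f : Ω} (hfE : f ∈ E)
    (hf : IsIntegral R f) : f ∈ R := by
  classical
  obtain ⟨P, hP, hPf⟩ := hf
  obtain ⟨u, N, -, hN, hNR, hT⟩ := exists_level' h H hr hE
    ((Finset.range (P.natDegree + 1)).image fun i => (P.coeff i : Ω)) (by
      intro g hg
      obtain ⟨i, -, rfl⟩ := Finset.mem_image.1 hg
      exact (P.coeff i).2) ∅ (by simp)
  refine hNR (hN.normal h hn (by simp [hrD]) hfE ?_)
  -- the equation over `N`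
  have hc : ∀ i, (P.coeff i : Ω) ∈ N := by
    intro i
    by_cases hi : i < P.natDegree + 1
    · exact hT _ (Finset.mem_image_of_mem _ (Finset.mem_range.2 hi))
    · rw [Polynomial.coeff_eq_zero_of_natDegree_lt (by omega)]
      exact N.zero_mem
  have hlift : P.map (algebraMap R Ω) ∈ Polynomial.lifts (algebraMap N Ω) := by
    rw [Polynomial.lifts_iff_coeff_lifts]
    intro i
    rw [coeff_map]
    exact ⟨⟨_, hc i⟩, rfl⟩
  obtain ⟨Q, hQ, -, hQm⟩ := Polynomial.lifts_and_natDegree_eq_and_monic hlift (hP.map _)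
  refine ⟨Q, hQm, ?_⟩
  rw [← eval_map, hQ, eval_map]
  exact hPf

end Pool.Agent.TGL17
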