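import Pool.Agent.Lib.TGL_h17.Glue
import Pool.Agent.Lib.TGL.Step

/-!
# TANK G, limit level: calculus of limit frames and limit rings
-/

set_option autoImplicit false

namespace Pool.Agent.TGL17

open Pool.Agent.TAO (OVal VPos Ctx0 val_add_vpos)
open Pool.Agent.ALLO (locv icl ICl le_locv locv_mono locv_le locv_inv locv_nonneg locv_field)
open Pool.Agent.TGBh34 (IsFr Pre0 MM0)
open Pool.Agent.LU1 (FracIs)
open Pool.Agent.TGL (LF OMin Mo Lim)

universe u w

variable {k Ω : Type u} [Field k] [Field Ω] [Algebra k Ω]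
  {𝕂 : Type w} [Field 𝕂] [LinearOrder 𝕂] [IsStrictOrderedRing 𝕂] {v : OVal 𝕂 Ω} {n r D : ℕ}

/-! ### Limit frames -/

/-- A limit frame is a plain frame. -/
theorem isFr (B : LF k v r D) : IsFr v B.Γ B.χ B.y B.R where
  mon := ⟨B.χ_ne, B.χ_add, B.χ_val⟩
  y_ne := B.y_ne
  y_pos := B.y_pos
  nonneg := B.nonneg
  loc := B.loc
  χ_mem := B.χ_mem
  y_mem := B.y_mem
  fg := B.fg
  fgen := B.fgen
  gen := B.gen

theorem mono_iff (B : LF k v r D) {f : Ω} : B.Mono f ↔ TGBh34.Mono v B.Γ B.χ B.R f := by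
  constructor
  · rintro ⟨h1, h2, h3, -⟩
    exact ⟨h1, h2, h3⟩
  · rintro ⟨h1, h2, h3⟩
    refine ⟨h1, h2, h3, div_ne_zero h1 (B.χ_ne _ h2), ?_⟩
    rw [v.map_div h1 (B.χ_ne _ h2), B.χ_val _ h2, sub_self]

theorem lf_normal (h : Ctx0 k v n) (B : LF k v r D) {E : IntermediateField k Ω}
    (hE : FracIs B.R E) (htr : Algebra.trdeg k E = ((r + D : ℕ))) :
    ∀ f ∈ E, IsIntegral B.R f → f ∈ B.R := fun _ hf hint =>
  normal h (isFr B) B.rk hE htr rfl hf hint

section Mono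

variable (B : LF k v r D) {f g : Ω}

theorem mono_one : B.Mono (1 : Ω) := (mono_iff B).2 (TGBh34.Mono.one (isFr B).toPre0)

theorem mono_mul (hf : B.Mono f) (hg : B.Mono g) : B.Mono (f * g) :=
  (mono_iff B).2 (TGBh34.Mono.mul (isFr B).toPre0 ((mono_iff B).1 hf) ((mono_iff B).1 hg))

theorem mono_inv (hf : B.Mono f) : B.Mono f⁻¹ :=
  (mono_iff B).2 (TGBh34.Mono.inv (isFr B).toPre0 ((mono_iff B).1 hf))

theorem mono_div (hf : B.Mono f) (hg : B.Mono g) : B.Mono (f / g) :=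
  (mono_iff B).2 (TGBh34.Mono.div (isFr B).toPre0 ((mono_iff B).1 hf) ((mono_iff B).1 hg))

theorem mono_pow (hf : B.Mono f) (m : ℕ) : B.Mono (f ^ m) :=
  (mono_iff B).2 (TGBh34.Mono.pow (isFr B).toPre0 ((mono_iff B).1 hf) m)

theorem mono_zpow (hf : B.Mono f) (m : ℤ) : B.Mono (f ^ m) := by
  obtain ⟨m, rfl | rfl⟩ := m.eq_nat_or_neg
  · rw [zpow_natCast]
    exact mono_pow B hf m
  · rw [zpow_neg, zpow_natCast]
    exact mono_inv B (mono_pow B hf m)

theorem mono_mem (hf : B.Mono f) (h0 : 0 ≤ v f) : f ∈ B.R :=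
  TGBh34.Mono.mem (isFr B).toPre0 ((mono_iff B).1 hf) h0

theorem mono_of_un (hf : B.Un f) : B.Mono f :=
  (mono_iff B).2 (TGBh34.Mono.of_unit (isFr B).toPre0 hf.1 hf.2.1 hf.2.2)

theorem mono_chi {γ : 𝕂} (hγ : γ ∈ B.Γ) : B.Mono (B.χ γ) :=
  (mono_iff B).2 (TGBh34.Mono.of_chi (isFr B).toPre0 hγ)

/-- A monomial of value `0` is a unit. -/
theorem un_of_mono (hf : B.Mono f) (h0 : v f = 0) : B.Un f :=
  ⟨mono_mem B hf h0.ge, hf.1, h0⟩

/-- Two monomials of the same value differ by a unit. -/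
theorem un_div_chi (hf : B.Mono f) {γ : 𝕂} (hγ : γ ∈ B.Γ) (h : v f = γ) :
    B.Un (f / B.χ γ) := by
  refine un_of_mono B (mono_div B hf (mono_chi B hγ)) ?_
  rw [v.map_div hf.1 (B.χ_ne γ hγ), B.χ_val γ hγ, h, sub_self]

/-- Monomials in monomials are monomials. -/
theorem mono_of_mo {S : Set Ω} (hS : ∀ s ∈ S, B.Mono s) {m : Ωˣ} (hm : m ∈ Mo S) :
    B.Mono (m : Ω) := by
  unfold Mo at hm
  induction hm using Subgroup.closure_induction with
  | mem x hx => exact hS _ hx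
  | one => rw [Units.val_one]; exact mono_one B
  | mul x y _ _ hx hy => rw [Units.val_mul]; exact mono_mul B hx hy
  | inv x _ hx => rw [Units.val_inv_eq_inv_val]; exact mono_inv B hx

/-- Monomials of a frame stay monomials in an extension. -/
theorem ext_mono {C : LF k v r D} (h : B.Ext C) (hf : B.Mono f) : C.Mono f := by
  have h1 : f = (B.χ (v f) / C.χ (v f)) * C.χ (v f) * (f / B.χ (v f)) := by
    have h2 := B.χ_ne _ hf.2.1
    have h3 := C.χ_ne _ (h.Γ_le _ hf.2.1)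
    field_simp
  rw [h1]
  refine mono_mul C (mono_mul C (mono_of_un C (h.χ_un _ hf.2.1))
    (mono_chi C (h.Γ_le _ hf.2.1))) (mono_of_un C ?_)
  exact ⟨h.le hf.2.2.1, hf.2.2.2.1, hf.2.2.2.2⟩

end Mono

/-! ### Integral closures -/

theorem isIntegral_mono {A A' : Subalgebra k Ω} (h : A ≤ A') {f : Ω} (hf : IsIntegral A f) :
    IsIntegral A' f := by
  obtain ⟨P, hP, hPf⟩ := hf
  refine ⟨P.map (Subalgebra.inclusion h).toRingHom, hP.map _, ?_⟩
  rw [Polynomial.eval₂_map]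
  exact hPf

theorem icl_mono {A A' : Subalgebra k Ω} {E E' : IntermediateField k Ω} (h : A ≤ A')
    (hE : E ≤ E') : ICl v A E ≤ ICl v A' E' :=
  locv_mono fun _ hf => ⟨hE hf.1, isIntegral_mono h hf.2⟩

/-! ### Minimal elements -/

theorem OMin.exists (h : Ctx0 k v n) {P : Submodule k Ω} (hfg : P.FG) (hne : P ≠ ⊥) :
    ∃ f, OMin v P f := by
  classical
  obtain ⟨S, hS⟩ := hfg
  have hex : (S.filter fun s => s ≠ 0).Nonempty := by
    by_contra hcon
    rw [Finset.not_nonempty_iff_eq_empty] at hcon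
    apply hne
    rw [← hS, Submodule.span_eq_bot]
    intro s hs
    by_contra h0
    have : s ∈ S.filter fun s => s ≠ 0 := Finset.mem_filter.2 ⟨hs, h0⟩
    rw [hcon] at this
    exact absurd this (Finset.notMem_empty s)
  obtain ⟨f, hf, hmin⟩ := Finset.exists_min_image _ (fun s => v s) hex
  rw [Finset.mem_filter] at hf
  refine ⟨f, ⟨hS ▸ Submodule.subset_span hf.1, hf.2, fun g hg => ?_⟩⟩
  rw [← hS] at hg
  induction hg using Submodule.span_induction with
  | mem x hx =>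
    intro h0
    have hx0 : x ≠ 0 := by
      rintro rfl
      exact h0 (zero_div f)
    rw [v.map_div hx0 hf.2, sub_nonneg]
    exact hmin x (Finset.mem_filter.2 ⟨hx, hx0⟩)
  | zero => rw [zero_div]; exact OVal.Ge.zero
  | add x y _ _ hx hy => rw [add_div]; exact hx.add hy
  | smul c x _ hx =>
    rw [smul_div_assoc, Algebra.smul_def]
    have h1 : v.Ge 0 (algebraMap k Ω c) := by
      intro h0
      have hc : c ≠ 0 := by
        rintro rfl
        exact h0 (map_zero _)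
      rw [h.triv c hc]
    have := h1.mul hx
    rwa [add_zero] at this

/-- Comparison of two minimal elements. -/
theorem OMin.val {P : Submodule k Ω} {f g : Ω} (hf : OMin v P f) (hg : OMin v P g) :
    v f = v g := by
  have h1 := hf.div g hg.mem (div_ne_zero hg.ne hf.ne)
  have h2 := hg.div f hf.mem (div_ne_zero hf.ne hg.ne)
  rw [v.map_div hg.ne hf.ne] at h1
  rw [v.map_div hf.ne hg.ne] at h2
  linarith

/-- If all `g / f`, `g ∈ P`, `f` minimal, are in a local ring, then so are all ratios. -/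
theorem OMin.ratio {P : Submodule k Ω} {A : Subalgebra k Ω}
    (hA : ∀ a ∈ A, a ≠ 0 → v a = 0 → a⁻¹ ∈ A) {f : Ω} (hf : OMin v P f)
    (h : ∀ g ∈ P, g / f ∈ A) {f' g : Ω} (hf' : OMin v P f') (hg : g ∈ P) : g / f' ∈ A := by
  have h1 : (f' / f)⁻¹ ∈ A := by
    refine hA _ (h f' hf'.mem) (div_ne_zero hf'.ne hf.ne) ?_
    rw [v.map_div hf'.ne hf.ne, OMin.val hf' hf, sub_self]
  have h2 := A.mul_mem (h g hg) h1
  rwa [inv_div, div_mul_div_cancel₀ hf.ne] at h2

theorem OMin.mul {P Q : Submodule k Ω} {f g : Ω} (hf : OMin v P f) (hg : OMin v Q g) :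
    OMin v (P * Q) (f * g) := by
  refine ⟨Submodule.mul_mem_mul hf.mem hg.mem, mul_ne_zero hf.ne hg.ne, fun x hx => ?_⟩
  induction hx using Submodule.mul_induction_on' with
  | mem_mul_mem a ha b hb =>
    rw [mul_div_mul_comm]
    have := (hf.div a ha).mul (hg.div b hb)
    rwa [add_zero] at this
  | add a _ b _ ha hb => rw [add_div]; exact ha.add hb

/-! ### Limit rings -/

section Lim

variable {P Q : Submodule k Ω} {S T : Set Ω}

theorem lim_inv : ∀ f ∈ Lim v P S, f ≠ 0 → v f = 0 → f⁻¹ ∈ Lim v P S := fun _ hf h0 h1 =>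
  locv_inv hf h0 h1

theorem lim_field {E : IntermediateField k Ω} (hP : ∀ f ∈ P, f ∈ E) (hS : ∀ s ∈ S, s ∈ E) :
    ∀ f ∈ Lim v P S, f ∈ E := by
  have hmo : ∀ m ∈ Mo S, (m : Ω) ∈ E := by
    intro m hm
    unfold Mo at hm
    induction hm using Subgroup.closure_induction with
    | mem x hx => exact hS _ hx
    | one => rw [Units.val_one]; exact E.one_mem
    | mul x y _ _ hx hy => rw [Units.val_mul]; exact E.mul_mem hx hy
    | inv x _ hx => rw [Units.val_inv_eq_inv_val]; exact E.inv_mem hx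
  have hle : Algebra.adjoin k ({x | ∃ f g, OMin v P f ∧ g ∈ P ∧ x = g / f} ∪
      {x | ∃ m ∈ Mo S, v.Ge 0 (m : Ω) ∧ x = (m : Ω)}) ≤ E.toSubalgebra := by
    refine Algebra.adjoin_le ?_
    rintro x (⟨f, g, hf, hg, rfl⟩ | ⟨m, hm, -, rfl⟩)
    · exact E.div_mem (hP g hg) (hP f hf.mem)
    · exact hmo m hm
  exact locv_field fun f hf => hle hf

theorem lim_nonneg (h : Ctx0 k v n) : ∀ f ∈ Lim v P S, v.Ge 0 f := by
  refine locv_nonneg fun f hf => ?_
  induction hf using Algebra.adjoin_induction with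
  | mem x hx =>
    rcases hx with ⟨f, g, hf, hg, rfl⟩ | ⟨m, -, hm, rfl⟩
    · exact hf.div g hg
    · exact hm
  | algebraMap c =>
    intro h0
    have hc : c ≠ 0 := by
      rintro rfl
      exact h0 (map_zero _)
    rw [h.triv c hc]
  | add x y _ _ hx hy => exact hx.add hy
  | mul x y _ _ hx hy =>
    have := hx.mul hy
    rwa [add_zero] at this

/-- The monomials in the labels of value `≥ 0` are in the limit ring. -/
theorem mo_mem_lim {m : Ωˣ} (hm : m ∈ Mo S) (h0 : v.Ge 0 (m : Ω)) : (m : Ω) ∈ Lim v P S :=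
  le_locv _ (Algebra.subset_adjoin (Or.inr ⟨m, hm, h0, rfl⟩))

theorem ratio_mem_lim {f g : Ω} (hf : OMin v P f) (hg : g ∈ P) : g / f ∈ Lim v P S :=
  le_locv _ (Algebra.subset_adjoin (Or.inl ⟨f, g, hf, hg, rfl⟩))

/-- The limit ring is the smallest local ring containing its generators. -/
theorem lim_le {A : Subalgebra k Ω} (hA : ∀ a ∈ A, a ≠ 0 → v a = 0 → a⁻¹ ∈ A) {f : Ω}
    (hf : OMin v P f) (h : ∀ g ∈ P, g / f ∈ A)
    (hm : ∀ m ∈ Mo S, v.Ge 0 (m : Ω) → (m : Ω) ∈ A) : Lim v P S ≤ A := by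
  refine locv_le (Algebra.adjoin_le ?_) hA
  rintro x (⟨f', g, hf', hg, rfl⟩ | ⟨m, hmm, h0, rfl⟩)
  · exact OMin.ratio hA hf h hf' hg
  · exact hm m hmm h0

theorem mo_mono (h : S ⊆ T) : Mo S ≤ Mo T := Subgroup.closure_mono fun _ hx => h hx

/-- Products of models and more labels give bigger limit rings. -/
theorem lim_mul_mono (hf : ∃ f, OMin v P f) (hg : ∃ g, OMin v Q g) (hST : S ⊆ T) :
    Lim v P S ≤ Lim v (P * Q) T := by
  obtain ⟨f, hf⟩ := hf
  obtain ⟨q, hq⟩ := hg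
  refine lim_le lim_inv hf (fun g hg => ?_) fun m hm h0 => mo_mem_lim (mo_mono hST hm) h0
  have h1 : g / f = (g * q) / (f * q) := by
    rw [mul_div_mul_right _ _ hq.ne]
  rw [h1]
  exact ratio_mem_lim (OMin.mul hf hq) (Submodule.mul_mem_mul hg hq.mem)

/-- Limit rings of products of models. -/
theorem lim_mul_le {A : Subalgebra k Ω} (hA : ∀ a ∈ A, a ≠ 0 → v a = 0 → a⁻¹ ∈ A) {f q : Ω}
    (hf : OMin v P f) (hq : OMin v Q q) (h : ∀ g ∈ P, g / f ∈ A) (h' : ∀ g ∈ Q, g / q ∈ A)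
    (hm : ∀ m ∈ Mo S, v.Ge 0 (m : Ω) → (m : Ω) ∈ A) : Lim v (P * Q) S ≤ A := by
  refine lim_le hA (OMin.mul hf hq) (fun g hg => ?_) hm
  induction hg using Submodule.mul_induction_on' with
  | mem_mul_mem a ha b hb =>
    rw [mul_div_mul_comm]
    exact A.mul_mem (h a ha) (h' b hb)
  | add a _ b _ ha hb => rw [add_div]; exact A.add_mem ha hb

end Lim

end Pool.Agent.TGL17
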