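import Pool.Agent.Lib.TGL_h17.Nfd
import Pool.Agent.Lib.TG_h17.Levels
import Pool.Agent.Lib.TGB_h34.Tz
import Pool.Agent.Lib.ALLY_h64.Str

/-!
# TANK G, limit level: the integral closure of the new limit ring in `L(z)`

`R` is the frame ring of `L`, `S ⊂ L` a finite additive group whose nonzero elements are monomials,
`R₁` a local ring of `K₀ ⊂ L(z)`. If `R₁` lies in `Rz` and the integral closure of `R₁` in `L(z)`
(localised at the centre) contains `R` and all the monomials of value `≥ 0` in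
`F = ∏ s ∈ S, (z - s)` and in the monomials of `R`, then it is equal to `Rz`.
-/

set_option autoImplicit false

namespace Pool.Agent.TGL17

open Pool.Agent.TAO (OVal VPos Ctx0 ge_of_isIntegral)
open Pool.Agent.ALLO (locv icl ICl le_locv locv_mono locv_le locv_inv locv_nonneg locv_field)
open Pool.Agent.TGBh34 (IsFr Pre0 MM0 Mono Rz Rz_le Rz_inv le_Rz RkIs TZ exists_frame_z
  chi_mem_field)
open Pool.Agent.ALLh43 (ext)
open Pool.Agent.LU1 (FracIs)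
open Pool.Agent.ALLh64 (mem_ICl_of_isIntegral)
open Pool.Agent.TGH17 (LD)

universe u w

variable {k Ω : Type u} [Field k] [Field Ω] [Algebra k Ω]
  {𝕂 : Type w} [Field 𝕂] [LinearOrder 𝕂] [IsStrictOrderedRing 𝕂] {v : OVal 𝕂 Ω} {m n r D : ℕ}
  {Γ : AddSubgroup 𝕂} {χ : 𝕂 → Ω} {y : Fin D → Ω} {R : Subalgebra k Ω}

/-- The elements of `ICl v R₁ E` have value `≥ 0`. -/
theorem icl_nonneg {R₁ : Subalgebra k Ω} (h : ∀ f ∈ R₁, v.Ge 0 f) (E : IntermediateField k Ω) :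
    ∀ f ∈ ICl v R₁ E, v.Ge 0 f :=
  locv_nonneg fun _ hf => ge_of_isIntegral (fun a => h _ a.2) hf.2

theorem icl_field {R₁ : Subalgebra k Ω} (E : IntermediateField k Ω) :
    ∀ f ∈ ICl v R₁ E, f ∈ E :=
  locv_field fun _ hf => hf.1

theorem le_icl {R₁ : Subalgebra k Ω} {E : IntermediateField k Ω} (h : ∀ f ∈ R₁, f ∈ E) :
    R₁ ≤ ICl v R₁ E := fun f hf =>
  le_locv _ ⟨h f hf, isIntegral_algebraMap (x := (⟨f, hf⟩ : R₁))⟩

/-- Localised integral closures are contained in every local ring which is integrally closed in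
`E` and contains `R₁`. -/
theorem icl_le {R₁ B : Subalgebra k Ω} {E : IntermediateField k Ω} (h : R₁ ≤ B)
    (hB : ∀ f ∈ B, f ≠ 0 → v f = 0 → f⁻¹ ∈ B) (hn : ∀ f ∈ E, IsIntegral B f → f ∈ B) :
    ICl v R₁ E ≤ B := by
  refine locv_le ?_ hB
  rintro f ⟨hf, hint⟩
  refine hn f hf ?_
  obtain ⟨P, hP, hPf⟩ := hint
  refine ⟨P.map (Subalgebra.inclusion h).toRingHom, hP.map _, ?_⟩
  rw [Polynomial.eval₂_map]
  exact hPf

/-- The data of the levels lemma. -/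
theorem exists_LD (H : IsFr v Γ χ y R) {L Lz : IntermediateField k Ω}
    (hL : ∀ f ∈ R, f ∈ L) (hLz : L ≤ Lz) {z : Ω} (hz : z ∈ Lz) (hzL : z ∉ L) {S : Finset Ω}
    (hS0 : (0 : Ω) ∈ S) (hSadd : ∀ a ∈ S, ∀ b ∈ S, a + b ∈ S) (hSneg : ∀ a ∈ S, -a ∈ S)
    (hSL : ∀ s ∈ S, s ∈ L) (hSM : ∀ s ∈ S, s ≠ 0 → Mono v Γ χ R s) {R₁ : Subalgebra k Ω}
    (hR₁ : ∀ f ∈ R₁, v.Ge 0 f) (hRT : R ≤ ICl v R₁ Lz)
    (key : ∀ b : Ω, Mono v Γ χ R b → ∀ a : ℤ, 0 ≤ v ((∏ s ∈ S, (z - s)) ^ a * b) →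
      (∏ s ∈ S, (z - s)) ^ a * b ∈ ICl v R₁ Lz) :
    LD v (ICl v R₁ Lz) Lz.toSubalgebra S {b | Mono v Γ χ R b} z where
  nonneg := icl_nonneg hR₁ Lz
  loc := fun _ hf h0 h1 => locv_inv hf h0 h1
  nrm := fun _ hx hint => mem_ICl_of_isIntegral hx hint
  inv_Λ := fun _ hx => Lz.inv_mem hx
  z_mem := hz
  S_zero := hS0
  S_add := hSadd
  S_neg := hSneg
  z_ne := fun s hs h => hzL (h ▸ hSL s hs)
  dvd := fun s hs s' hs' h0 h0' hle => hRT <| by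
    refine Mono.mem H.toPre0 (Mono.div H.toPre0 (hSM s' hs' h0') (hSM s hs h0)) ?_
    rw [v.map_div h0' h0]
    linarith
  B_S := hSM
  B_ne := fun _ hb => hb.1
  B_Λ := fun b hb => hLz <| by
    have h1 : b = χ (v b) * (b / χ (v b)) := by
      rw [mul_div_cancel₀ _ (H.mon.ne _ hb.2.1)]
    rw [h1]
    exact L.mul_mem (chi_mem_field H.toPre0 hL hb.2.1) (hL _ hb.2.2)
  B_one := Mono.one H.toPre0
  B_mul := fun _ hb _ hb' => Mono.mul H.toPre0 hb hb'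
  B_inv := fun _ hb => Mono.inv H.toPre0 hb
  key := key

/-- `Rz` lies in the integral closure of the limit ring. -/
theorem Rz_le_icl (H : IsFr v Γ χ y R) {L Lz : IntermediateField k Ω}
    (hL : ∀ f ∈ R, f ∈ L) (hLz : L ≤ Lz) {z : Ω} (hz : z ∈ Lz) (hzL : z ∉ L) {S : Finset Ω}
    (hS0 : (0 : Ω) ∈ S) (hSadd : ∀ a ∈ S, ∀ b ∈ S, a + b ∈ S) (hSneg : ∀ a ∈ S, -a ∈ S)
    (hSL : ∀ s ∈ S, s ∈ L) (hSM : ∀ s ∈ S, s ≠ 0 → Mono v Γ χ R s) {s₀ : Ω} (hs₀ : s₀ ∈ S)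
    (hmax : ∀ s ∈ S, v (z - s) ≤ v (z - s₀)) {R₁ : Subalgebra k Ω}
    (hR₁ : ∀ f ∈ R₁, v.Ge 0 f) (hRT : R ≤ ICl v R₁ Lz)
    (key : ∀ b : Ω, Mono v Γ χ R b → ∀ a : ℤ, 0 ≤ v ((∏ s ∈ S, (z - s)) ^ a * b) →
      (∏ s ∈ S, (z - s)) ^ a * b ∈ ICl v R₁ Lz) :
    Rz v Γ χ R (z - s₀) ≤ ICl v R₁ Lz := by
  have h := exists_LD H hL hLz hz hzL hS0 hSadd hSneg hSL hSM hR₁ hRT key
  refine Rz_le hRT (fun γ hγ a h0 => ?_) fun f hf h0 h1 => locv_inv hf h0 h1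
  have h1 := h.mono_mem hs₀ hmax (b := χ γ) (Mono.of_chi H.toPre0 hγ) a (by
    rw [v.map_mul (zpow_ne_zero _ (h.w_ne hs₀)) (H.mon.ne γ hγ), v.map_zpow (h.w_ne hs₀),
      H.mon.val γ hγ]
    linarith)
  rwa [mul_comm] at h1

/-- ROW LEVELS: `ICl v R₁ L(z) = Rz`. -/
theorem icl_eq_Rz (h : Ctx0 k v m) (H : IsFr v Γ χ y R) {L Lz : IntermediateField k Ω}
    (hL : FracIs R L) (hrk : RkIs Γ r) {z : Ω} (hz : ¬ IsAlgebraic L z)
    (hLz : Lz = L ⊔ IntermediateField.adjoin k {z})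
    (hn : Algebra.trdeg k Lz = (r + D + 1 : ℕ)) {S : Finset Ω}
    (hS0 : (0 : Ω) ∈ S) (hSadd : ∀ a ∈ S, ∀ b ∈ S, a + b ∈ S) (hSneg : ∀ a ∈ S, -a ∈ S)
    (hSL : ∀ s ∈ S, s ∈ L) (hSM : ∀ s ∈ S, s ≠ 0 → Mono v Γ χ R s) {s₀ : Ω} (hs₀ : s₀ ∈ S)
    (hmax : ∀ s ∈ S, v (z - s) ≤ v (z - s₀)) {R₁ : Subalgebra k Ω}
    (hR₁ : R₁ ≤ Rz v Γ χ R (z - s₀)) (hRT : R ≤ ICl v R₁ Lz)
    (key : ∀ b : Ω, Mono v Γ χ R b → ∀ a : ℤ, 0 ≤ v ((∏ s ∈ S, (z - s)) ^ a * b) →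
      (∏ s ∈ S, (z - s)) ^ a * b ∈ ICl v R₁ Lz) :
    ICl v R₁ Lz = Rz v Γ χ R (z - s₀) := by
  have hzL : z ∉ L := fun hzL => hz (isAlgebraic_algebraMap (⟨z, hzL⟩ : L))
  have hLLz : L ≤ Lz := by rw [hLz]; exact le_sup_left
  have hzLz : z ∈ Lz := by
    rw [hLz]
    exact (le_sup_right : IntermediateField.adjoin k {z} ≤ _)
      (IntermediateField.subset_adjoin k _ (Set.mem_singleton z))
  have hSdiff : ∀ s ∈ (S : Set Ω), ∀ t ∈ (S : Set Ω), s - t = 0 ∨ Mono v Γ χ R (s - t) := by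
    intro s hs t ht
    by_cases h0 : s - t = 0
    · exact Or.inl h0
    · right
      refine hSM _ ?_ h0
      rw [sub_eq_add_neg]
      exact hSadd _ hs _ (hSneg _ ht)
  obtain ⟨D', r', χ', W, n', y', hTZ, hFr, hrk', hrD, -, -, hfrac⟩ :=
    exists_frame_z h.triv h.res H hL hrk hz hSdiff hSL hs₀ hmax
  rw [← hLz] at hfrac
  refine le_antisymm ?_ ?_
  · refine icl_le hR₁ (fun f hf h0 h1 => Rz_inv hf h0 h1) fun f hfE hf => ?_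
    exact normal h hFr hrk' hfrac hn hrD.symm hfE hf
  · exact Rz_le_icl H hL.1 hLLz hzLz hzL hS0 hSadd hSneg hSL hSM hs₀ hmax
      (fun f hf => hFr.nonneg f (hR₁ hf)) hRT key

end Pool.Agent.TGL17
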