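import Pool.Agent.Lib.ALLZO.Reg
import Pool.Agent.Lib.ALLO.LocV
import Pool.Agent.Lib.LU2_h15z.Normal

/-!
# TANK G, limit level: local rings of a field `E` whose maximal ideal has `trdeg E` generators

`NR v E N z`: `N` is the localisation at the centre of `v` of a finitely generated algebra with
field of fractions `E`, and the elements `z i` generate its maximal ideal. If there are
`trdeg k E` of them, then `N` is regular, hence integrally closed.
-/

set_option autoImplicit false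

namespace Pool.Agent.TGL17

open Pool.Agent.TAO (OVal VPos VPos.zero VPos.add VPos.mul' VPos.sub Ctx0)
open Pool.Agent.ALLO (locv le_locv locv_mono locv_le locv_inv locv_nonneg)
open Pool.Agent.ALLZO (locv_isNoetherian residue)
open Pool.Agent.LU1 (FracIs)

universe u w

variable {k Ω : Type u} [Field k] [Field Ω] [Algebra k Ω]
  {𝕂 : Type w} [Field 𝕂] [LinearOrder 𝕂] [IsStrictOrderedRing 𝕂] {v : OVal 𝕂 Ω} {m n : ℕ}

/-- `N` is the localisation at the centre of `v` of a finitely generated algebra with field of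
fractions `E`, and the elements `z i` generate its maximal ideal. -/
structure NR (v : OVal 𝕂 Ω) (E : IntermediateField k Ω) (N : Subalgebra k Ω) {ι : Type}
    [Fintype ι] (z : ι → Ω) : Prop where
  fgen : ∃ F : Finset Ω, N = locv v (Algebra.adjoin k (F : Set Ω))
  nonneg : ∀ f ∈ N, v.Ge 0 f
  mem : ∀ i, z i ∈ N
  pos : ∀ i, VPos v (z i)
  gen : ∀ f ∈ N, VPos v f → ∃ a : ι → Ω, (∀ i, a i ∈ N) ∧ f = ∑ i, z i * a i
  frac : FracIs N E

variable {E : IntermediateField k Ω} {N : Subalgebra k Ω} {ι : Type} [Fintype ι] {z : ι → Ω}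

theorem NR.inv_mem (L : NR v E N z) {f : Ω} (hf : f ∈ N) (h0 : f ≠ 0) (h1 : v f = 0) :
    f⁻¹ ∈ N := by
  obtain ⟨F, hF⟩ := L.fgen
  rw [hF] at hf ⊢
  exact locv_inv hf h0 h1

theorem NR.isUnit_of (L : NR v E N z) (t : N) (h0 : (t : Ω) ≠ 0) (h1 : v (t : Ω) = 0) :
    IsUnit t :=
  IsUnit.of_mul_eq_one ⟨(t : Ω)⁻¹, L.inv_mem t.2 h0 h1⟩ (Subtype.ext (mul_inv_cancel₀ h0))

theorem NR.vpos_of_not_isUnit (L : NR v E N z) (t : N) (ht : ¬ IsUnit t) : VPos v (t : Ω) := by
  intro h0
  rcases (L.nonneg t t.2 h0).lt_or_eq with h1 | h1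
  · exact h1
  · exact absurd (L.isUnit_of t h0 h1.symm) ht

theorem NR.not_isUnit_of_vpos (L : NR v E N z) (t : N) (ht : VPos v (t : Ω)) : ¬ IsUnit t := by
  rintro ⟨u, rfl⟩
  have h1 : ((u : N) : Ω) * ((u⁻¹ : Nˣ) : N) = 1 := by
    rw [← Subalgebra.coe_mul, Units.mul_inv, Subalgebra.coe_one]
  have h2 : ((u : N) : Ω) ≠ 0 := left_ne_zero_of_mul (h1 ▸ one_ne_zero)
  have h3 : (((u⁻¹ : Nˣ) : N) : Ω) ≠ 0 := right_ne_zero_of_mul (h1 ▸ one_ne_zero)
  have h4 := v.map_mul h2 h3
  rw [h1, v.map_one] at h4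
  have h5 := ht h2
  have h6 := L.nonneg _ ((u⁻¹ : Nˣ) : N).2 h3
  linarith

theorem NR.isLocalRing (L : NR v E N z) : IsLocalRing N := by
  refine IsLocalRing.of_nonunits_add fun a b ha hb => ?_
  apply L.not_isUnit_of_vpos
  rw [Subalgebra.coe_add]
  exact (L.vpos_of_not_isUnit a ha).add (L.vpos_of_not_isUnit b hb)

theorem NR.isNoetherian (L : NR v E N z) : IsNoetherianRing N := by
  obtain ⟨F, hF⟩ := L.fgen
  rw [hF]
  exact locv_isNoetherian _ ⟨F, rfl⟩

theorem NR.mem_nonunits (L : NR v E N z) (t : N) : ¬ IsUnit t ↔ VPos v (t : Ω) :=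
  ⟨L.vpos_of_not_isUnit t, L.not_isUnit_of_vpos t⟩

/-- The parameters in `N`. -/
def NR.par (L : NR v E N z) (i : ι) : N := ⟨z i, L.mem i⟩

theorem NR.mem_span_par (L : NR v E N z) {t : N} (ht : VPos v (t : Ω)) :
    t ∈ Ideal.span (Set.range L.par) := by
  obtain ⟨a, ha, hab⟩ := L.gen t t.2 ht
  have h1 : t = ∑ i, L.par i * ⟨a i, ha i⟩ := by
    apply Subtype.ext
    rw [hab]
    push_cast
    rfl
  rw [h1]
  exact Ideal.sum_mem _ fun i _ => Ideal.mul_mem_right _ _ (Ideal.subset_span ⟨i, rfl⟩)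

theorem NR.maximalIdeal_eq (L : NR v E N z) [IsLocalRing N] :
    IsLocalRing.maximalIdeal N = Ideal.span (Set.range L.par) := by
  apply le_antisymm
  · intro t ht
    rw [IsLocalRing.mem_maximalIdeal, mem_nonunits_iff, L.mem_nonunits] at ht
    exact L.mem_span_par ht
  · rw [Ideal.span_le]
    rintro _ ⟨i, rfl⟩
    rw [SetLike.mem_coe, IsLocalRing.mem_maximalIdeal, mem_nonunits_iff, L.mem_nonunits]
    exact L.pos i

theorem NR.dim_ge (h : Ctx0 k v m) (hn : Algebra.trdeg k E = n) (L : NR v E N z) :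
    (n : WithBot ℕ∞) ≤ ringKrullDim N := by
  obtain ⟨F, hF⟩ := L.fgen
  let A : Subalgebra k Ω := Algebra.adjoin k (F : Set Ω)
  have hle : A ≤ N := by
    rw [hF]
    exact le_locv A
  have hA0 : ∀ a ∈ A, v.Ge 0 a := fun a ha => L.nonneg a (hle ha)
  let _ : Algebra A N := (Subalgebra.inclusion hle).toRingHom.toAlgebra
  let p : Ideal A :=
    { carrier := {a | VPos v (a : Ω)}
      add_mem' := fun {a b} ha hb => by
        have := VPos.add ha hb
        exact this
      zero_mem' := VPos.zero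
      smul_mem' := fun c a ha => by
        have := VPos.mul' (hA0 c c.2) ha
        exact this }
  have hmem : ∀ a : A, a ∈ p ↔ VPos v (a : Ω) := fun a => Iff.rfl
  have h1p : (1 : A) ∉ p := by
    intro h1
    have h2 := ((hmem 1).1 h1) one_ne_zero
    have h3 : v ((1 : A) : Ω) = 0 := v.map_one
    rw [h3] at h2
    exact lt_irrefl _ h2
  have hp : p.IsMaximal := by
    rw [Ideal.isMaximal_iff]
    refine ⟨h1p, fun J x hJ hx hxJ => ?_⟩
    obtain ⟨c, hc⟩ := residue h (hA0 x x.2)
    have hxc : x - algebraMap k A c ∈ p := hc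
    have hc0 : c ≠ 0 := by
      rintro rfl
      rw [_root_.map_zero, sub_zero] at hxc
      exact hx hxc
    have h2 : algebraMap k A c ∈ J := by
      have h3 := J.sub_mem hxJ (hJ hxc)
      rwa [sub_sub_cancel] at h3
    have h4 := J.mul_mem_left (algebraMap k A c⁻¹) h2
    rwa [← _root_.map_mul, inv_mul_cancel₀ hc0, _root_.map_one] at h4
  have hpr : p.IsPrime := hp.isPrime
  have hloc : IsLocalization.AtPrime N p := by
    rw [IsLocalization.AtPrime, isLocalization_iff]
    refine ⟨?_, ?_, ?_⟩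
    · rintro ⟨y, hy⟩
      have hy0 : (y : Ω) ≠ 0 := by
        intro h0
        apply hy
        rw [SetLike.mem_coe, hmem, h0]
        exact VPos.zero
      have hyv : v (y : Ω) = 0 := by
        by_contra h1
        apply hy
        rw [SetLike.mem_coe, hmem]
        intro _
        exact lt_of_le_of_ne (hA0 y y.2 hy0) (Ne.symm h1)
      have hinv : (y : Ω)⁻¹ ∈ N := by
        rw [hF]
        exact locv_inv (le_locv A y.2) hy0 hyv
      refine IsUnit.of_mul_eq_one ⟨(y : Ω)⁻¹, hinv⟩ ?_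
      apply Subtype.ext
      exact mul_inv_cancel₀ hy0
    · rintro ⟨z, hzR⟩
      have hz : z ∈ locv v A := by
        rw [← hF]
        exact hzR
      obtain ⟨a, ha, b, hb, hb0, hvb, hab⟩ := hz
      refine ⟨(⟨a, ha⟩, ⟨⟨b, hb⟩, ?_⟩), ?_⟩
      · intro h1
        have h2 := ((hmem _).1 h1) hb0
        change 0 < v b at h2
        rw [hvb] at h2
        exact lt_irrefl _ h2
      · apply Subtype.ext
        change z * b = a
        rw [hab, div_mul_cancel₀ _ hb0]
    · intro x y hxy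
      refine ⟨1, ?_⟩
      have h1 : (x : Ω) = y := congrArg (fun t : N => (t : Ω)) hxy
      rw [Subtype.ext h1]
  have hft : Algebra.FiniteType k A := (Subalgebra.fg_iff_finiteType _).1 ⟨F, rfl⟩
  -- `E` as a field over `A`
  have hAE : ∀ a ∈ A, a ∈ E := fun a ha => L.frac.1 a (hle ha)
  let φ : A →ₐ[k] E := A.val.codRestrict E.toSubalgebra fun a => hAE a a.2
  let _ : Algebra A E := φ.toRingHom.toAlgebra
  have hφ : ∀ a : A, ((algebraMap A E a : E) : Ω) = a := fun _ => rfl
  have htow : IsScalarTower k A E := IsScalarTower.of_algebraMap_eq fun c => by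
    apply Subtype.ext
    rw [hφ]
    rfl
  have hfaith : FaithfulSMul A E := by
    rw [faithfulSMul_iff_algebraMap_injective]
    intro a b hab
    apply Subtype.ext
    rw [← hφ a, ← hφ b, hab]
  have halg : Algebra.IsAlgebraic A E := by
    refine ⟨fun e => ?_⟩
    obtain ⟨a, ha, b, hb, hb0, hab⟩ := L.frac.2 e e.2
    -- `e` is a quotient of elements of `A`
    have h3 : ∀ f ∈ N, ∃ a ∈ A, ∃ b ∈ A, b ≠ 0 ∧ f = a / b := by
      intro f hf
      rw [hF] at hf
      obtain ⟨a, ha, b, hb, hb0, -, hab⟩ := hf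
      exact ⟨a, ha, b, hb, hb0, hab⟩
    obtain ⟨a1, ha1, a2, ha2, ha20, rfl⟩ := h3 a ha
    obtain ⟨b1, hb1, b2, hb2, hb20, rfl⟩ := h3 b hb
    have hb10 : b1 ≠ 0 := by
      rintro rfl
      rw [zero_div] at hb0
      exact hb0 rfl
    have h4 : (e : Ω) * (a2 * b1) = a1 * b2 := by
      rw [hab]
      field_simp
    refine ⟨Polynomial.C (⟨a2 * b1, A.mul_mem ha2 hb1⟩ : A) * Polynomial.X -
      Polynomial.C (⟨a1 * b2, A.mul_mem ha1 hb2⟩ : A), ?_, ?_⟩
    · intro h5
      have h6 := congrArg (fun P : Polynomial A => P.coeff 1) h5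
      simp only [Polynomial.coeff_sub, Polynomial.coeff_C_mul, Polynomial.coeff_X_one, mul_one,
        Polynomial.coeff_C_succ, sub_zero, Polynomial.coeff_zero] at h6
      have h7 : a2 * b1 = 0 := congrArg Subtype.val h6
      exact (mul_ne_zero ha20 hb10) h7
    · rw [_root_.map_sub, _root_.map_mul, Polynomial.aeval_C, Polynomial.aeval_C,
        Polynomial.aeval_X, sub_eq_zero]
      apply Subtype.ext
      change (a2 * b1) * (e : Ω) = a1 * b2
      rw [← h4, mul_comm]
  have h1 := Pool.Agent.LU1.RegAux.le_height (A := A) (Ω := E) n hn p hp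
  rw [IsLocalization.AtPrime.ringKrullDim_eq_height p N]
  exact_mod_cast h1

theorem NR.spanFinrank_le (L : NR v E N z) [IsLocalRing N] :
    (IsLocalRing.maximalIdeal N).spanFinrank ≤ Fintype.card ι := by
  classical
  rw [L.maximalIdeal_eq]
  have h1 : (Set.range L.par) = ((Finset.univ.image L.par : Finset N) : Set N) := by
    rw [Finset.coe_image, Finset.coe_univ, Set.image_univ]
  rw [h1]
  refine (Submodule.spanFinrank_span_le_ncard_of_finite (Finset.finite_toSet _)).trans ?_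
  rw [Set.ncard_coe_finset]
  exact Finset.card_image_le.trans (by rw [Finset.card_univ])

theorem NR.dim (h : Ctx0 k v m) (hn : Algebra.trdeg k E = n) (L : NR v E N z)
    (hc : Fintype.card ι = n) : ringKrullDim N = (n : WithBot ℕ∞) := by
  have h1 := L.isNoetherian
  have h2 := L.isLocalRing
  apply le_antisymm
  · refine (ringKrullDim_le_spanFinrank_maximalIdeal N).trans ?_
    rw [← hc]
    exact_mod_cast L.spanFinrank_le
  · exact L.dim_ge h hn

theorem NR.regular (h : Ctx0 k v m) (hn : Algebra.trdeg k E = n) (L : NR v E N z)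
    (hc : Fintype.card ι = n) : IsRegularLocalRing N := by
  have h1 := L.isNoetherian
  have h2 := L.isLocalRing
  apply IsRegularLocalRing.of_spanFinrank_maximalIdeal_le
  rw [L.dim h hn hc, ← hc]
  exact_mod_cast L.spanFinrank_le

/-- `N` is integrally closed. -/
theorem NR.normal (h : Ctx0 k v m) (hn : Algebra.trdeg k E = n) (L : NR v E N z)
    (hc : Fintype.card ι = n) {f : Ω} (hfE : f ∈ E) (hf : IsIntegral N f) : f ∈ N := by
  have hreg := L.regular h hn hc
  have hcic := Pool.Agent.LU2Z.cic_of_regular n N (L.dim h hn hc)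
  obtain ⟨a, ha, b, hb, hb0, hfab⟩ := L.frac.2 f hfE
  have hb1 : (⟨b, hb⟩ : N) ≠ 0 := fun h0 => hb0 (congrArg Subtype.val h0)
  have hal := hf.isAlmostIntegral_of_exists_smul_mem_range
    ⟨⟨b, hb⟩, mem_nonZeroDivisors_of_ne_zero hb1, ⟨⟨a, ha⟩, by
      rw [hfab, Algebra.smul_def]
      change a = b * (a / b)
      rw [mul_div_cancel₀ _ hb0]⟩⟩
  obtain ⟨e, he, hl⟩ := hal
  obtain ⟨c, hc'⟩ := hcic ⟨a, ha⟩ ⟨b, hb⟩ e hb1 (nonZeroDivisors.ne_zero he) fun l => by
    obtain ⟨q, hq⟩ := hl l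
    refine ⟨q, Subtype.ext ?_⟩
    have h1 : (q : Ω) = (e : Ω) * f ^ l := by
      rw [Algebra.smul_def] at hq
      exact hq
    push_cast
    rw [h1, hfab, div_pow]
    field_simp
  have h2 : a = b * (c : Ω) := congrArg Subtype.val hc'
  rw [hfab, h2, mul_div_cancel_left₀ _ hb0]
  exact c.2

end Pool.Agent.TGL17
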